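import Pool.Agent.U514.TG.Stm

/-!
# Project TG, package LOCX: the values go on to the north (helper750)
-/

set_option autoImplicit false

namespace Pool.Agent.U750.TG.LOCX

open Finset
open Pool.Agent.U514.TG

variable {F V : Type} [Field F]

lemma out_id (b d r : F) (e : V ⊕ F) (x y : MvPolynomial V F) :
    (⟨false, 1, 0, b, d, r, e⟩ : Tile F V).outX x y = x := by
  simp [Tile.outX]

lemma out_y (b d r : F) (e : V ⊕ F) (x y : MvPolynomial V F) :
    (⟨false, 0, 1, b, d, r, e⟩ : Tile F V).outX x y = y := by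
  simp [Tile.outX]

lemma out_zero (b d r : F) (e : V ⊕ F) (x y : MvPolynomial V F) :
    (⟨false, 0, 0, b, d, r, e⟩ : Tile F V).outX x y = 0 := by
  simp [Tile.outX]

lemma out_add (b d r : F) (e : V ⊕ F) (x y : MvPolynomial V F) :
    (⟨false, 1, 1, b, d, r, e⟩ : Tile F V).outX x y = x + y := by
  simp [Tile.outX]

lemma out_mul (b d r : F) (e : V ⊕ F) (x y : MvPolynomial V F) :
    (⟨true, 1, 1, b, d, r, e⟩ : Tile F V).outX x y = x * y := by
  simp [Tile.outX]

theorem t_LOCX : S_LOCX := by
  intro F V _ p hp τ I J c j ρ hc hρ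
  have ht := hp.t_pos τ
  obtain ⟨t, htd⟩ : ∃ t, t = p.t τ := ⟨_, rfl⟩
  rw [← htd] at hc hρ ht ⊢
  by_cases h1 : c < t ^ 2
  · have hsx : ∀ j ρ, p.sx τ I J c j ρ = 0 := by
      intro j ρ
      simp only [Par.sx]
      rw [← htd, if_pos h1]
    simp only [hsx, Par.stile]
    rw [← htd, if_pos h1]
    split_ifs <;> exact out_zero _ _ _ _ _ _
  · obtain ⟨i, hi⟩ : ∃ i, i = (c - t ^ 2) / 2 % t := ⟨_, rfl⟩
    obtain ⟨k, hk⟩ : ∃ k, k = (c - t ^ 2) / 2 / t := ⟨_, rfl⟩
    have hi1 : i < t := hi ▸ Nat.mod_lt _ ht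
    have hk1 : k < t := by
      rw [hk, Nat.div_lt_iff_lt_mul ht, ← sq]
      omega
    by_cases h2 : (c - t ^ 2) % 2 = 0
    · have hsx : ∀ j ρ, p.sx τ I J c j ρ =
          if ρ ≤ i then (if j = 0 then 0 else
            p.FL τ (I * t + i) (j - 1) * p.FR τ (J * t + k) (j - 1))
          else if ρ ≤ t + 2 * k then p.FL τ (I * t + i) j
          else p.FL τ (I * t + i) j * p.FR τ (J * t + k) j := by
        intro j ρ
        simp only [Par.sx]
        rw [← htd, if_neg h1, if_pos h2, ← hi, ← hk]
      have hst : p.stile τ I J c j ρ =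
          if ρ < t then (if ρ = i then ⟨false, 0, 1, 1, 0, 0, .inr 0⟩
            else ⟨false, 1, 0, 1, 0, 0, .inr 0⟩)
          else if (ρ - t) % 2 = 0 then
            (if (ρ - t) / 2 = k then ⟨true, 1, 1, 1, 0, 0, .inr 0⟩
              else ⟨false, 1, 0, 1, 0, 0, .inr 0⟩)
          else
            (if (ρ - t) / 2 = k then ⟨false, 1, 0, 0, 1, 0, .inr 0⟩
              else ⟨false, 1, 0, 0, 0, 0, .inr 0⟩) := by
        simp only [Par.stile]
        rw [← htd, if_neg h1, if_pos h2, ← hi, ← hk]
      rw [hst, hsx, hsx, hsx]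
      by_cases a1 : ρ < t
      · rw [if_pos a1]
        by_cases a2 : ρ = i
        · rw [if_pos a2, out_y]
          have hsy : p.sy τ I J c j ρ = p.FL τ (I * t + ρ) j := by
            simp only [Par.sy]
            rw [← htd, if_pos a1, if_neg h1]
          rw [hsy, a2, if_pos (by omega), if_neg (by omega), if_pos (by omega)]
        · rw [if_neg a2, out_id, if_pos (by omega : ρ + 1 < 3 * t)]
          by_cases a3 : ρ ≤ i
          · rw [if_pos a3, if_pos (by omega : ρ + 1 ≤ i)]
          · rw [if_neg a3, if_neg (by omega : ¬ (ρ + 1 ≤ i)), if_pos (by omega), if_pos (by omega)]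
      · rw [if_neg a1]
        by_cases a2 : (ρ - t) % 2 = 0
        · rw [if_pos a2]
          by_cases a3 : (ρ - t) / 2 = k
          · have hsy : p.sy τ I J c j ρ = p.FR τ (J * t + k) j := by
              simp only [Par.sy]
              rw [← htd, if_neg a1, if_pos a2, if_neg h1, a3]
            rw [if_pos a3, out_mul, hsy, if_pos (by omega : ρ + 1 < 3 * t),
              if_neg (by omega : ¬ (ρ ≤ i)), if_pos (by omega : ρ ≤ t + 2 * k),
              if_neg (by omega : ¬ (ρ + 1 ≤ i)), if_neg (by omega : ¬ (ρ + 1 ≤ t + 2 * k))]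
          · rw [if_neg a3, out_id, if_pos (by omega : ρ + 1 < 3 * t),
              if_neg (by omega : ¬ (ρ ≤ i)), if_neg (by omega : ¬ (ρ + 1 ≤ i))]
            by_cases a4 : ρ ≤ t + 2 * k
            · rw [if_pos a4, if_pos (by omega)]
            · rw [if_neg a4, if_neg (by omega)]
        · rw [if_neg a2]
          have a5 : (if (ρ - t) / 2 = k then (⟨false, 1, 0, 0, 1, 0, .inr 0⟩ : Tile F V)
              else ⟨false, 1, 0, 0, 0, 0, .inr 0⟩).outX
              (if ρ ≤ i then (if j = 0 then 0 else
                p.FL τ (I * t + i) (j - 1) * p.FR τ (J * t + k) (j - 1))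
              else if ρ ≤ t + 2 * k then p.FL τ (I * t + i) j
              else p.FL τ (I * t + i) j * p.FR τ (J * t + k) j) (p.sy τ I J c j ρ) =
              (if ρ ≤ i then (if j = 0 then 0 else
                p.FL τ (I * t + i) (j - 1) * p.FR τ (J * t + k) (j - 1))
              else if ρ ≤ t + 2 * k then p.FL τ (I * t + i) j
              else p.FL τ (I * t + i) j * p.FR τ (J * t + k) j) := by
            by_cases a3 : (ρ - t) / 2 = k
            · rw [if_pos a3, out_id]
            · rw [if_neg a3, out_id]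
          rw [a5, if_neg (by omega : ¬ (ρ ≤ i)), if_neg (by omega : ¬ (ρ + 1 ≤ i)),
            if_pos (Nat.zero_le i), if_neg (Nat.succ_ne_zero j), Nat.add_sub_cancel]
          by_cases a4 : ρ ≤ t + 2 * k
          · rw [if_pos a4, if_pos (by omega : ρ + 1 < 3 * t), if_pos (by omega)]
          · rw [if_neg a4]
            by_cases a6 : ρ + 1 < 3 * t
            · rw [if_pos a6, if_neg (by omega)]
            · rw [if_neg a6]
    · have hsx : ∀ j ρ, p.sx τ I J c j ρ =
          if ρ ≤ t + 2 * k + 1 then p.M τ (I * t + i) (J * t + k) j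
          else p.M τ (I * t + i) (J * t + k) (j + 1) := by
        intro j ρ
        simp only [Par.sx]
        rw [← htd, if_neg h1, if_neg h2, ← hi, ← hk]
      have hst : p.stile τ I J c j ρ =
          if ρ < t ∨ (ρ - t) % 2 = 0 then ⟨false, 1, 0, 1, 0, 0, .inr 0⟩
          else if (ρ - t) / 2 = k then ⟨false, 1, 1, 0, 0, 0, .inr 0⟩
          else ⟨false, 1, 0, 0, 0, 0, .inr 0⟩ := by
        simp only [Par.stile]
        rw [← htd, if_neg h1, if_neg h2, ← hk]
      rw [hst, hsx, hsx, hsx, if_pos (by omega : 0 ≤ t + 2 * k + 1)]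
      by_cases a1 : ρ < t ∨ (ρ - t) % 2 = 0
      · rw [if_pos a1, out_id, if_pos (by omega : ρ + 1 < 3 * t)]
        by_cases a4 : ρ ≤ t + 2 * k + 1
        · rw [if_pos a4, if_pos (by omega)]
        · rw [if_neg a4, if_neg (by omega)]
      · rw [if_neg a1]
        by_cases a3 : (ρ - t) / 2 = k
        · have hsy : p.sy τ I J c j ρ = p.FL τ (I * t + i) j * p.FR τ (J * t + k) j := by
            simp only [Par.sy]
            rw [← htd, if_neg (by omega), if_neg (by omega), if_pos ⟨by omega, by omega, by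
              rw [← hk, a3]⟩, ← hi, a3]
          rw [if_pos a3, out_add, hsy, if_pos (by omega : ρ ≤ t + 2 * k + 1),
            if_neg (by omega : ¬ (ρ + 1 ≤ t + 2 * k + 1))]
          have hM : p.M τ (I * t + i) (J * t + k) j + p.FL τ (I * t + i) j * p.FR τ (J * t + k) j =
              p.M τ (I * t + i) (J * t + k) (j + 1) := by
            unfold Par.M
            rw [sum_range_succ]
          rw [hM]
          split_ifs <;> rfl
        · rw [if_neg a3, out_id]
          by_cases a4 : ρ ≤ t + 2 * k + 1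
          · rw [if_pos a4, if_pos (by omega : ρ + 1 < 3 * t), if_pos (by omega)]
          · rw [if_neg a4]
            by_cases a6 : ρ + 1 < 3 * t
            · rw [if_pos a6, if_neg (by omega)]
            · rw [if_neg a6]

end Pool.Agent.U750.TG.LOCX
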